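import Pool.Agent.Helper27.T4.Crt
import Pool.Agent.Helper27.T4.Ind3
import Pool.Agent.Helper29.T4.Pin

/-!
# T4': definitions (MP_12a1af)

Three families with primes `pr f`, digit positions `y = 0, 1, 2, ...`; position `y` belongs to the
family `own y`.  Eras: era `k` is `[bb k, bb (k+1))` with `bb (k+1)` about `3/2 * bb k`; it is owned
by the family `k % 3`.  In era `k` the steps have length `wof (bb k)`.
-/

namespace Pool.Agent.Helper5.ET

open Finset Pool.Agent.Helper27.T4

/-- the three primes -/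
def pr : Fin 3 → ℕ := ![1000003, 1000033, 1000037]

theorem pr_prime (f : Fin 3) : (pr f).Prime := by
  fin_cases f <;> (simp only [pr]; norm_num)

theorem pr_inj : Function.Injective pr := by
  intro f g h
  fin_cases f <;> fin_cases g <;> simp_all [pr]

theorem pr_ne_two (f : Fin 3) : pr f ≠ 2 := by
  fin_cases f <;> simp [pr]

/-- step length belonging to a border `y` (a multiple of 8, about `8 sqrt y log y`) -/
def wof (y : ℕ) : ℕ := 8 * (Nat.sqrt y * Nat.log 2 y)

/-- the borders -/
def bb : ℕ → ℕ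
  | 0 => 2 ^ 64
  | k + 1 => bb k + (bb k / (2 * wof (bb k)) + 1) * wof (bb k)

/-- the era of a position -/
def era (y : ℕ) : ℕ := Nat.findGreatest (fun k => bb k ≤ y) y

/-- the owner of a position -/
def own (y : ℕ) : Fin 3 := ⟨era y % 3, Nat.mod_lt _ (by norm_num)⟩

/-- the gap after the node `y` -/
def gap (y : ℕ) : ℕ := wof (bb (era y))

/-- the nodes -/
def tau : ℕ → ℕ
  | 0 => bb 0
  | c + 1 => tau c + gap (tau c)

/-- number of digits `< j` of the family `f` -/
def cnt (f : Fin 3) (j : ℕ) : ℕ := ((range j).filter (fun y => own y = f)).card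

/-- exponent vector at `j` -/
def av (j : ℕ) : Fin 3 → ℕ := fun f => cnt f j

/-- the modulus `N_j`, product of the digit bases below `j` -/
def Nj (j : ℕ) : ℕ := NN pr (av j)

/-! ## orders -/

/-- index of the order used at the position `l` -/
def ordK (l : ℕ) : ℕ :=
  if 5 * (l - bb (era l)) < 2 * (bb (era l + 1) - bb (era l)) then era l else era l + 1

/-- is the last family isolated at the position `l`? -/
def iso (l : ℕ) : Prop :=
  bb (era l + 1) - bb (era l) ≤ 3 * (l - bb (era l)) ∧
    5 * (l - bb (era l)) < 2 * (bb (era l + 1) - bb (era l))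

instance (l : ℕ) : Decidable (iso l) := by unfold iso; infer_instance

/-- rank of the family `f` in the order of index `K`: the chain is `K, K-1, K-2` modulo 3 -/
def rk (K : ℕ) (f : Fin 3) : ℕ := (K + 3 - f.val) % 3

/-- the families which hash `f` at the position `l` -/
def pre (l : ℕ) (f : Fin 3) : Finset (Fin 3) :=
  if iso l ∧ rk (ordK l) f = 2 then ∅ else univ.filter (fun g => rk (ordK l) g < rk (ordK l) f)

/-- `x` restricted to a set of families -/
def mask (P : Finset (Fin 3)) (x : Fin 3 → ℕ) : Fin 3 → ℕ := fun g => if g ∈ P then x g else 0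

/-! ## states

State `s = 2 c`: `l = tau c`, `e = tau (c+1)`, `k = tau (c+1) + 5/8 gap (tau c)`.
State `s = 2 c + 1`: `l = tau c`, `e = tau (c+2)`, `k = tau (c+2) + 1/8 gap (tau (c+1))`.
-/

def sl (s : ℕ) : ℕ := tau (s / 2)

def se (s : ℕ) : ℕ := tau (s / 2 + 1 + s % 2)

def sk (s : ℕ) : ℕ :=
  if s % 2 = 0 then tau (s / 2 + 1) + 5 * (gap (tau (s / 2)) / 8)
  else tau (s / 2 + 2) + gap (tau (s / 2 + 1)) / 8

/-- gap of the state -/
def sg (s : ℕ) : ℕ := gap (sl s)

/-! ## random keys

A key is `(s, t, x)`: for `t < 3` the hash value of the family `t` in the state `s` at the masked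
vector `x`, for `t = 3` the offset of the block `(x 0, x 1)` of the window set of the state `s`. -/

abbrev Key : Type := ℕ × ℕ × (Fin 3 → ℕ)

/-- number of values of a key -/
def Mk (k : Key) : ℕ :=
  if h : k.2.1 < 3 then pr ⟨k.2.1, h⟩ ^ cnt ⟨k.2.1, h⟩ (se k.1) else 2 ^ (k.2.2 0)

/-- the keys of a state -/
def keysOf (s : ℕ) : Finset Key :=
  {s} ×ˢ (range 4 ×ˢ Fintype.piFinset (fun _ : Fin 3 => range (Nj (sk (s + 1)) + 1)))

/-- extension of a function on a finite set of keys by zero -/
def ext (K : Finset Key) (r : K → ℕ) : Key → ℕ := fun k => if h : k ∈ K then r ⟨k, h⟩ else 0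

/-- the finite probability space of the keys in `K` -/
def OmK (K : Finset Key) : Finset (K → ℕ) := Pool.Agent.Helper29.T4.Om (fun k : K => Mk k.1)

open Classical in
/-- the property `B` has probability at most `ε` when the keys in `K` are uniform -/
def PrLe (K : Finset Key) (B : (Key → ℕ) → Prop) (ε : ℝ) : Prop :=
  (((OmK K).filter (fun r => B (ext K r))).card : ℝ) ≤ ε * ((OmK K).card : ℝ)

/-! ## the sets -/

/-- the hash value of family `f` in state `s` at `x` -/
def hv (s : ℕ) (w : Key → ℕ) (f : Fin 3) (x : Fin 3 → ℕ) : ℕ := w (s, f.val, mask (pre (sl s) f) x)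

/-- the components of the code of `x` in the state `s` -/
noncomputable def cmp (s : ℕ) (w : Key → ℕ) (x : Fin 3 → ℕ) (f : Fin 3) :
    ZMod (pr f ^ av (se s) f) :=
  Lg (pr f) (av (se s) f) (x f) + ((hv s w f x : ℕ) : ZMod (pr f ^ av (se s) f))

/-- the code of `x` in the state `s`, a number `< Nj (se s)` -/
noncomputable def code (s : ℕ) (w : Key → ℕ) (x : Fin 3 → ℕ) : ℕ :=
  cv pr_prime pr_inj (av (se s)) (cmp s w x)

/-- admissible triples of primes -/
def XX (s : ℕ) : Finset (Fin 3 → ℕ) :=
  Fintype.piFinset (fun f => (range (pr f ^ cnt f (sl s))).filter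
    (fun y => y.Prime ∧ y.Coprime (pr f) ∧ y ^ 2 < pr f ^ cnt f (sl s)))

def vlo (s : ℕ) : ℕ := Nj (sk s) / Nj (sl s)

def vhi (s : ℕ) : ℕ := (Nj (sk (s + 1)) - Nj (se s)) / Nj (sl s)

/-- level of `v`: `4 ^ lev v ≤ v < 4 ^ (lev v + 1)` -/
def lev (v : ℕ) : ℕ := Nat.log 4 v

/-- the key of the block of `v` in the state `s` -/
def bkey (s v : ℕ) : Key := (s, 3, ![lev v, v / 2 ^ lev v, 0])

/-- the window set: one element in each block of length `2 ^ lev v` -/
def VV (s : ℕ) (w : Key → ℕ) : Finset ℕ :=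
  (Ico (vlo s) (vhi s)).filter (fun v => v % 2 ^ lev v = w (bkey s v))

/-- the element belonging to `(x, v)` -/
noncomputable def el (s : ℕ) (w : Key → ℕ) (x : Fin 3 → ℕ) (v : ℕ) : ℕ :=
  code s w x + Nj (sl s) * v

/-- the set of the state `s` -/
noncomputable def AA (s : ℕ) (w : Key → ℕ) : Finset ℕ :=
  (XX s ×ˢ VV s w).image (fun q => el s w q.1 q.2)

/-- number of representations `n = a + a'` with `a` in state `s`, `a'` in state `s'` -/
noncomputable def Rp (s s' : ℕ) (w : Key → ℕ) (n : ℕ) : ℕ :=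
  ((AA s w ×ˢ AA s' w).filter (fun q => q.1 + q.2 = n)).card

end Pool.Agent.Helper5.ET
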