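import Pool.Agent.Helper42.T4.Final
import Pool.Agent.Helper3.M.Block
import Pool.Agent.Helper25.T4.Asm
import Pool.Agent.Helper39.ET.MesoA

/-! # T4' (MP_12a1af, Q2): the final theorem -/

set_option autoImplicit false

namespace Pool.Agent.Helper5.ET

open Finset

theorem meso_block : ∃ (C : ℝ) (s0 : ℕ), ∀ s s' : ℕ, s0 ≤ s' → s' + 2 ≤ s →
    (sl s : ℝ) - sl s' ≤ 1 / 100 * sl s →
    ∀ K : Finset Key, keysOf s ⊆ K → keysOf s' ⊆ K →
      PrLe K (fun w => ∃ n, C * ((sl s : ℝ) / ((sl s : ℝ) - sl s')) < Rp s s' w n)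
        (Real.exp (-(Real.sqrt (sl s)))) :=
  Pool.Agent.Helper3.M.meso_block_of Pool.Agent.Helper39.ET.MesoA.meso_facts

theorem macro_block : Pool.Agent.Helper42.T4.MacroC (1 / 100) := by
  obtain ⟨θ, η, hθ, hη, h1, h2⟩ := Pool.Agent.Helper25.T4.macro_block
  exact ⟨θ, η, hθ, hη, h1 (1 / 100) (by norm_num), h2⟩

/-- There are a set `A` of natural numbers and `C > 0` such that `r_A(n) ≤ C √(log n)` for all
`n ≥ 2` and `|A ∩ [0, x)| ≥ √x / (C (log x)^3)` for all `x ≥ 2`. -/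
theorem final : ∃ (A : Set ℕ) (C : ℝ), 0 < C ∧
    (∀ n : ℕ, 2 ≤ n → (({q : ℕ × ℕ | q.1 ∈ A ∧ q.2 ∈ A ∧ q.1 + q.2 = n}.ncard : ℕ) : ℝ) ≤
      C * Real.sqrt (Real.log n)) ∧
    ∀ x : ℕ, 2 ≤ x → Real.sqrt x / (C * (Real.log x) ^ 3) ≤ ((A ∩ Set.Iio x).ncard : ℝ) :=
  Pool.Agent.Helper42.T4.final_of_blocks meso_block macro_block

end Pool.Agent.Helper5.ET
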